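import Pool.Agent.H768.D2.Norm

/-!
Affine symmetries: the normal form of a half-turn, and the reduction of the theorem on orientation
preserving affine symmetries to the statement on eight directions for half-turn symmetric bodies.
-/

set_option autoImplicit false

open Set Topology Module

namespace Pool.Agent.H768.C2

open Pool.Agent.W867.Cov3 (Cov8)

/-- eight directions illuminate every half-turn symmetric convex body -/
def Lights8 : Prop :=
  ∀ K : Set ((ℝ × ℝ) × ℝ), Convex ℝ K → IsCompact K → (interior K).Nonempty →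
    (∀ x ∈ K, (-x.1, x.2) ∈ K) →
    ∃ D : Finset ((ℝ × ℝ) × ℝ), D.card ≤ 8 ∧
      ∀ x ∈ K, ∃ d ∈ D, ∃ t : ℝ, 0 < t ∧ x + t • d ∈ interior K

variable {V : Type*} [NormedAddCommGroup V] [NormedSpace ℝ V]

/-- the normal form of a linear half-turn -/
theorem ht_form_one [FiniteDimensional ℝ V] (hdim : finrank ℝ V = 3) (F : V →ₗ[ℝ] V)
    (hF : F * F = 1) (dF : LinearMap.det F = 1) (nF : F ≠ 1) :
    ∃ L : ((ℝ × ℝ) × ℝ) ≃ₗ[ℝ] V, ∀ p z, F (L (p, z)) = L (-p, z) := by
  have fF : ∀ v, F (F v) = v := fun v => by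
    have := congrArg (fun T : V →ₗ[ℝ] V => T v) hF
    simpa using this
  have ht := Pool.Agent.H768.D2.trace_of_inv' hdim F hF dF nF
  let U : Submodule ℝ V := LinearMap.ker (F - 1)
  let W : Submodule ℝ V := LinearMap.ker (F + 1)
  have hU : ∀ v, v ∈ U ↔ F v = v := fun v => by
    simp only [U, LinearMap.mem_ker, LinearMap.sub_apply, Module.End.one_apply, sub_eq_zero]
  have hW : ∀ v, v ∈ W ↔ F v = -v := fun v => by
    simp only [W, LinearMap.mem_ker, LinearMap.add_apply, Module.End.one_apply]
    rw [eq_neg_iff_add_eq_zero]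
  have hcompl : IsCompl W U := by
    constructor
    · rw [Submodule.disjoint_def]
      intro v h1 h2
      rw [hW] at h1
      rw [hU] at h2
      rw [h1] at h2
      have : (2 : ℝ) • v = 0 := by
        rw [two_smul]
        nth_rewrite 1 [← h2]
        abel
      rcases smul_eq_zero.1 this with h | h
      · norm_num at h
      · exact h
    · rw [codisjoint_iff, eq_top_iff]
      intro v _
      rw [Submodule.mem_sup]
      refine ⟨(1 / 2 : ℝ) • (v - F v), ?_, (1 / 2 : ℝ) • (v + F v), ?_, ?_⟩
      · rw [hW, map_smul, map_sub, fF]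
        module
      · rw [hU, map_smul, map_add, fF]
        module
      · module
  have hproj : LinearMap.IsProj U ((1 / 2 : ℝ) • (1 + F)) := by
    constructor
    · intro v
      rw [hU]
      simp only [LinearMap.smul_apply, LinearMap.add_apply, Module.End.one_apply, map_smul,
        map_add, fF]
      module
    · intro v hv
      rw [hU] at hv
      simp only [LinearMap.smul_apply, LinearMap.add_apply, Module.End.one_apply, hv]
      module
  have htr := hproj.trace
  rw [map_smul, map_add, ht, LinearMap.trace_one, hdim] at htr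
  have hfU : finrank ℝ U = 1 := by
    have : (1 : ℝ) = (finrank ℝ U : ℝ) := by
      rw [← htr]
      norm_num
    exact_mod_cast this.symm
  have hfW : finrank ℝ W = 2 := by
    have := Submodule.finrank_add_eq_of_isCompl hcompl
    omega
  have e1 : (ℝ × ℝ) ≃ₗ[ℝ] W := LinearEquiv.ofFinrankEq _ _ (by rw [hfW]; simp)
  have e2 : ℝ ≃ₗ[ℝ] U := LinearEquiv.ofFinrankEq _ _ (by rw [hfU]; simp)
  let L : ((ℝ × ℝ) × ℝ) ≃ₗ[ℝ] V := (e1.prodCongr e2).trans (Submodule.prodEquivOfIsCompl W U hcompl)
  have hL : ∀ p z, L (p, z) = (e1 p : V) + (e2 z : V) := fun p z => rfl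
  refine ⟨L, fun p z => ?_⟩
  rw [hL, hL, map_add, (hW _).1 (e1 p).2, (hU _).1 (e2 z).2, map_neg]
  rfl

/-- the theorem for a linear half-turn -/
theorem cov_one (H : Lights8) [FiniteDimensional ℝ V] (hdim : finrank ℝ V = 3) {K : Set V}
    (hK : Convex ℝ K) (hc : IsCompact K) (hint : (interior K).Nonempty) (F : V →ₗ[ℝ] V)
    (hF : F * F = 1) (dF : LinearMap.det F = 1) (nF : F ≠ 1) (hFK : ∀ v ∈ K, F v ∈ K) :
    Cov8 K := by
  obtain ⟨L, hLF⟩ := ht_form_one hdim F hF dF nF
  let Lc : V ≃L[ℝ] ((ℝ × ℝ) × ℝ) := L.symm.toContinuousLinearEquiv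
  have hLc : ∀ v, Lc v = L.symm v := fun v => rfl
  have hmem : ∀ p, p ∈ Lc '' K ↔ L p ∈ K := by
    intro p
    constructor
    · rintro ⟨v, hv, rfl⟩
      rw [hLc, L.apply_symm_apply]
      exact hv
    · intro hp
      exact ⟨L p, hp, by rw [hLc, L.symm_apply_apply]⟩
  have hconv : Convex ℝ (Lc '' K) := hK.linear_image (Lc : V →L[ℝ] ((ℝ × ℝ) × ℝ)).toLinearMap
  have hcomp : IsCompact (Lc '' K) := hc.image Lc.continuous
  obtain ⟨D, hD, hl⟩ := H (Lc '' K) hconv hcomp (by
    have h5 : interior (Lc '' K) = Lc '' interior K := (Lc.toHomeomorph.image_interior K).symm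
    rw [h5]
    exact hint.image _) (fun x hx => by
      rw [hmem] at hx ⊢
      rw [← hLF]
      exact hFK _ hx)
  obtain ⟨T, hT, hcov⟩ := Pool.Agent.Y512.cover_of_lit hconv hcomp D hl
  exact Cov8.of_image Lc ⟨T, hT.trans hD, hcov⟩

/-- one orientation preserving affine symmetry which is not the identity -/
theorem cov_affine_one (H : Lights8) [FiniteDimensional ℝ V] (hdim : finrank ℝ V = 3) {K : Set V}
    (hK : Convex ℝ K) (hc : IsCompact K) (hint : (interior K).Nonempty) (f : V →ᵃ[ℝ] V)
    (hf : f '' K = K) (df : 0 < LinearMap.det f.linear) (nf : ∃ v, f v ≠ v) : Cov8 K := by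
  by_cases h1 : ∃ v, f (f v) ≠ v
  · exact Pool.Agent.W867.Cov3.cov_affine hdim hK hc hint f hf df h1
  push Not at h1
  have hfK : ∀ x ∈ K, f x ∈ K := fun x hx => by
    rw [← hf]
    exact mem_image_of_mem f hx
  obtain ⟨c, hcK, hfc⟩ := Pool.Agent.W867.Cov3.exists_fixed f hK hc
    (hint.mono interior_subset) hfK
  have hfv : ∀ v, f (c + v) = c + f.linear v := by
    intro v
    have := f.map_vadd c v
    simp only [vadd_eq_add] at this
    rw [add_comm, this, hfc, add_comm]
  have himg : (fun x => -c + x) '' K = {v | c + v ∈ K} := by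
    ext v
    constructor
    · rintro ⟨x, hx, rfl⟩
      change c + (-c + x) ∈ K
      rwa [add_neg_cancel_left]
    · intro hv
      exact ⟨c + v, hv, neg_add_cancel_left _ _⟩
  have lf : ∀ v, f.linear v = f (c + v) - c := fun v => by rw [hfv]; abel
  have eF : f.linear * f.linear = 1 := by
    ext v
    simp only [Module.End.mul_apply, Module.End.one_apply]
    rw [lf (f.linear v), ← hfv, h1]
    abel
  refine Cov8.of_translate (-c) ?_
  rw [himg]
  refine cov_one H hdim (F := f.linear) ?_ ?_ ?_ eF (Pool.Agent.H768.D2.det_of_inv _ eF df) ?_ ?_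
  · have := hK.translate (-c)
    rwa [show (fun z => -c + z) '' K = {v | c + v ∈ K} from himg] at this
  · rw [← himg]
    exact hc.image (by fun_prop)
  · rw [← himg]
    have h5 : interior ((fun x => -c + x) '' K) = (fun x => -c + x) '' interior K :=
      ((Homeomorph.addLeft (-c)).image_interior K).symm
    rw [h5]
    exact hint.image _
  · intro h
    obtain ⟨x, hx⟩ := nf
    apply hx
    have : x = c + (x - c) := by abel
    rw [this, hfv, h]
    rfl
  · intro v hv
    change c + f.linear v ∈ K
    rw [← hfv]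
    exact hfK _ hv

end Pool.Agent.H768.C2
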