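import Pool.Agent.H768.C2.Norm
import Pool.Agent.H283.HT.Stm

/-!
The normalisation of the chord on the axis.
-/

set_option autoImplicit false

open Set Topology

namespace Pool.Agent.H768.C2

open Pool.Agent.H283.HT

theorem lights8_of_main (h : S_MAIN) : Lights8 := by
  intro K hK hc hint hR
  -- the half-turn of the interior
  have hRi : ∀ x ∈ interior K, (-x.1, x.2) ∈ interior K := by
    intro x hx
    let e : ((ℝ × ℝ) × ℝ) ≃ₜ ((ℝ × ℝ) × ℝ) := (Homeomorph.neg (ℝ × ℝ)).prodCongr (Homeomorph.refl ℝ)
    have h1 : e '' interior K = interior (e '' K) := e.image_interior K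
    have h2 : e '' K ⊆ K := by
      rintro _ ⟨y, hy, rfl⟩
      exact hR y hy
    have h3 : e x ∈ interior (e '' K) := by
      rw [← h1]
      exact mem_image_of_mem _ hx
    exact interior_mono h2 h3
  obtain ⟨x₀, hx₀⟩ := hint
  have hax : ∀ x ∈ K, ((0 : ℝ × ℝ), x.2) ∈ K := by
    intro x hx
    have h1 := hK hx (hR x hx) (a := 1 / 2) (b := 1 / 2) (by norm_num) (by norm_num) (by norm_num)
    convert h1 using 1
    ext <;> simp
    ring
  have haxi : ((0 : ℝ × ℝ), x₀.2) ∈ interior K := by
    have h1 := hK.interior hx₀ (hRi x₀ hx₀) (a := 1 / 2) (b := 1 / 2) (by norm_num) (by norm_num)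
      (by norm_num)
    convert h1 using 1
    ext <;> simp
    ring
  -- the highest and the lowest point
  have hne : K.Nonempty := ⟨x₀, interior_subset hx₀⟩
  obtain ⟨xt, hxt, htop⟩ := hc.exists_isMaxOn hne (f := fun x : (ℝ × ℝ) × ℝ => x.2) (by fun_prop)
  obtain ⟨xb, hxb, hbot⟩ := hc.exists_isMinOn hne (f := fun x : (ℝ × ℝ) × ℝ => x.2) (by fun_prop)
  obtain ⟨β, hβ⟩ : ∃ β, β = xt.2 := ⟨_, rfl⟩
  obtain ⟨α, hα⟩ : ∃ α, α = xb.2 := ⟨_, rfl⟩
  have hle : ∀ x ∈ K, x.2 ≤ β := fun x hx => by rw [hβ]; exact htop hx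
  have hge : ∀ x ∈ K, α ≤ x.2 := fun x hx => by rw [hα]; exact hbot hx
  have hlt : α < β := by
    have h1 : ∀ᶠ t : ℝ in 𝓝 x₀.2, ((0 : ℝ × ℝ), t) ∈ interior K :=
      (Continuous.tendsto (f := fun t : ℝ => ((0 : ℝ × ℝ), t)) (by fun_prop) x₀.2).eventually
        (isOpen_interior.mem_nhds haxi)
    obtain ⟨ε, hε, hb⟩ := Metric.eventually_nhds_iff.1 h1
    have h2 := hb (y := x₀.2 + ε / 2) (by
      rw [Real.dist_eq, add_sub_cancel_left, abs_of_pos (by positivity)]
      linarith)
    have h3 := hle _ (interior_subset h2)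
    have h4 := hge _ (interior_subset haxi)
    simp only at h3 h4
    linarith
  obtain ⟨c, hcd⟩ : ∃ c, c = (α + β) / 2 := ⟨_, rfl⟩
  obtain ⟨r, hr⟩ : ∃ r, r = (β - α) / 2 := ⟨_, rfl⟩
  have hr0 : 0 < r := by rw [hr]; linarith
  -- the map
  let e : ((ℝ × ℝ) × ℝ) ≃ₜ ((ℝ × ℝ) × ℝ) :=
    (Homeomorph.refl (ℝ × ℝ)).prodCongr ((Homeomorph.mulLeft₀ r hr0.ne').trans (Homeomorph.addLeft c))
  have he : ∀ x, e x = (x.1, c + r * x.2) := fun x => rfl
  have hb : Body (e ⁻¹' K) :=
    { conv := by
        intro x hx y hy a b ha hb hab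
        have h1 := hK hx hy ha hb hab
        change e (a • x + b • y) ∈ K
        convert h1 using 1
        rw [he, he, he]
        ext
        · simp
        · simp
        · simp
          have : b = 1 - a := by linarith
          rw [this]
          ring
      comp := e.isCompact_preimage.2 hc
      inner := by
        rw [← e.preimage_interior]
        exact ⟨e.symm x₀, by
          change e (e.symm x₀) ∈ interior K
          rwa [e.apply_symm_apply]⟩
      sym := fun x hx => by
        have h1 := hR _ hx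
        exact h1
      top := by
        change e _ ∈ K
        rw [he]
        have h1 := hax xt hxt
        rw [← hβ] at h1
        convert h1 using 2
        rw [hcd, hr]
        ring
      bot := by
        change e _ ∈ K
        rw [he]
        have h1 := hax xb hxb
        rw [← hα] at h1
        convert h1 using 2
        rw [hcd, hr]
        ring
      le := fun x hx => by
        have h1 := hle _ hx
        rw [he] at h1
        simp only at h1
        have h2 : r * x.2 ≤ r * 1 := by rw [hcd] at h1; rw [hr] at h1 ⊢; linarith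
        exact le_of_mul_le_mul_left h2 hr0
      ge := fun x hx => by
        have h1 := hge _ hx
        rw [he] at h1
        simp only at h1
        have h2 : r * (-1) ≤ r * x.2 := by rw [hcd] at h1; rw [hr] at h1 ⊢; linarith
        exact le_of_mul_le_mul_left h2 hr0 }
  obtain ⟨D, hD, hl⟩ := h _ hb
  classical
  refine ⟨D.image fun d => (d.1, r * d.2), Finset.card_image_le.trans hD, fun x hx => ?_⟩
  obtain ⟨y, rfl⟩ := e.surjective x
  obtain ⟨d, hd, t, ht, hi⟩ := hl y hx
  refine ⟨_, Finset.mem_image_of_mem _ hd, t, ht, ?_⟩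
  rw [← e.preimage_interior] at hi
  have h1 : e (y + t • d) ∈ interior K := hi
  convert h1 using 1
  rw [he, he]
  ext
  · simp
  · simp
  · simp
    ring

end Pool.Agent.H768.C2
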